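import Pool.Agent.E8helper66.GB.Stm

/-!
# Many odd `x`, prime to three, with `2 x + 3` prime
-/

set_option autoImplicit false

namespace Pool.Agent.E8helper89.GB

open Finset

lemma log_small (x : ℝ) (hx : (64 : ℝ) ^ 4 ≤ x) : 16 * Real.log x ≤ √x := by
  have hx0 : 0 ≤ x := le_trans (by positivity) hx
  have h1 : √(√x) * √(√x) = √x := Real.mul_self_sqrt (Real.sqrt_nonneg _)
  have h2 : (64 : ℝ) ≤ √(√x) := by
    refine Real.le_sqrt_of_sq_le (Real.le_sqrt_of_sq_le ?_)
    calc ((64 : ℝ) ^ 2) ^ 2 = 64 ^ 4 := by norm_num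
      _ ≤ x := hx
  have h3 : Real.log x = 4 * Real.log (√(√x)) := by
    rw [Real.log_sqrt (Real.sqrt_nonneg _), Real.log_sqrt hx0]; ring
  have h4 : Real.log (√(√x)) ≤ √(√x) - 1 := Real.log_le_sub_one_of_pos (by linarith)
  nlinarith

/-- prime powers which are not primes contribute little -/
lemma npp (N : ℕ) (hN : 1 ≤ N) :
    ∑ n ∈ ((Icc 1 N).filter (fun n => n ≡ 1 [MOD 4])).filter (fun n => ¬ n.Prime),
      ArithmeticFunction.vonMangoldt n ≤ 2 * √(N : ℝ) * Real.log N := by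
  have h1 := Chebyshev.psi_sub_theta_le (x := (N : ℝ)) (by exact_mod_cast hN)
  rw [Chebyshev.psi_sub_theta_eq_sum_not_prime, Nat.floor_natCast] at h1
  refine le_trans ?_ h1
  refine sum_le_sum_of_subset_of_nonneg ?_ fun _ _ _ => ArithmeticFunction.vonMangoldt_nonneg
  intro x hx
  rw [mem_filter, mem_filter, mem_Icc] at hx
  rw [mem_filter, mem_Ioc]
  exact ⟨⟨by omega, hx.1.1.2⟩, hx.2⟩

theorem link : Pool.Agent.E8helper66.GB.S_LINK := by
  obtain ⟨N0, hN0⟩ := Pool.Agent.H373R2.T7.lam_ap 2 1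
  refine ⟨N0 + 64 ^ 4 + ⌈Real.exp 16⌉₊ + 10, fun n hn => ?_⟩
  have hn1 : Real.exp 16 ≤ n := by
    refine (Nat.le_ceil _).trans ?_
    exact_mod_cast (by omega : ⌈Real.exp 16⌉₊ ≤ n)
  have hnp : (0 : ℝ) < n := lt_of_lt_of_le (Real.exp_pos _) hn1
  have hlog : (16 : ℝ) ≤ Real.log n := (Real.le_log_iff_exp_le hnp).2 hn1
  set N : ℕ := 2 * n - 3 with hN
  have hNn : n ≤ N := by omega
  have hNr : (n : ℝ) ≤ N := by exact_mod_cast hNn
  have hNp : (0 : ℝ) < N := lt_of_lt_of_le hnp hNr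
  have hL1 : (16 : ℝ) ≤ Real.log N := hlog.trans (Real.log_le_log hnp hNr)
  have hL2 : Real.log N ≤ 2 * Real.log n := by
    have : (N : ℝ) ≤ (n : ℝ) ^ 2 := by
      have : N ≤ n ^ 2 := by
        rw [sq]
        calc N ≤ 2 * n := by omega
          _ ≤ n * n := Nat.mul_le_mul_right _ (by omega)
      exact_mod_cast this
    calc Real.log N ≤ Real.log ((n : ℝ) ^ 2) := Real.log_le_log hNp this
      _ = 2 * Real.log n := by rw [Real.log_pow]; norm_num
  set T : Finset ℕ := (Icc 1 N).filter (fun n => n ≡ 1 [MOD 4]) with hT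
  have hap := hN0 N (by omega) 4 (by norm_num) (by push_cast; nlinarith) 1 N le_rfl
  rw [if_pos (by norm_num), pow_one] at hap
  have htot : Nat.totient 4 = 2 := by decide
  rw [htot] at hap
  have hsum : (N : ℝ) / 4 ≤ ∑ n ∈ T, ArithmeticFunction.vonMangoldt n := by
    have h1 := (abs_le.1 hap).1
    have h2 : (N : ℝ) / Real.log N ≤ N / 4 :=
      div_le_div_of_nonneg_left hNp.le (by norm_num) (by linarith)
    push_cast at h1
    have h3 : (N : ℝ) / 2 = N / 4 + N / 4 := by ring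
    linarith
  have hsplit := sum_filter_add_sum_filter_not T (fun n => n.Prime)
    (fun n => (ArithmeticFunction.vonMangoldt n : ℝ))
  have hnp2 := npp N (by omega)
  have hsm := log_small N (by
    have : (64 : ℕ) ^ 4 ≤ N := by omega
    exact_mod_cast this)
  have hsq : √(N : ℝ) * √(N : ℝ) = N := Real.mul_self_sqrt hNp.le
  have hbad : 2 * √(N : ℝ) * Real.log N ≤ N / 8 := by
    nlinarith [Real.sqrt_nonneg (N : ℝ)]
  have hgood : ∑ n ∈ T.filter (fun n => n.Prime), (ArithmeticFunction.vonMangoldt n : ℝ)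
      ≤ (T.filter (fun n => n.Prime)).card * Real.log N := by
    rw [← nsmul_eq_mul]
    refine sum_le_card_nsmul _ _ _ fun p hp => ?_
    rw [mem_filter, hT, mem_filter, mem_Icc] at hp
    refine ArithmeticFunction.vonMangoldt_le_log.trans (Real.log_le_log ?_ ?_)
    · exact_mod_cast hp.2.pos
    · exact_mod_cast hp.1.1.2
  have hcount : (N : ℝ) / 8 ≤ (T.filter (fun n => n.Prime)).card * Real.log N := by
    have h3 : (N : ℝ) / 4 = N / 8 + N / 8 := by ring
    linarith
  have hcard : (T.filter (fun n => n.Prime)).card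
      ≤ ((Icc 1 (n - 3)).filter (fun x => x % 2 = 1 ∧ ¬ 3 ∣ x ∧ (2 * x + 3).Prime)).card := by
    refine card_le_card_of_injOn (fun p => (p - 3) / 2) ?_ ?_
    · intro p hp
      have hp' := mem_filter.1 hp
      have h1 := mem_filter.1 hp'.1
      have h2 := mem_Icc.1 h1.1
      have h3 : p % 4 = 1 := h1.2
      have h4 : p ≠ 1 := hp'.2.ne_one
      have h5 : 2 * ((p - 3) / 2) + 3 = p := by omega
      refine mem_filter.2 ⟨mem_Icc.2 ⟨?_, ?_⟩, ?_, ?_, ?_⟩
      · show 1 ≤ (p - 3) / 2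
        omega
      · show (p - 3) / 2 ≤ n - 3
        omega
      · show (p - 3) / 2 % 2 = 1
        omega
      · show ¬ 3 ∣ (p - 3) / 2
        intro h
        have h6 : 3 ∣ p := by omega
        have h7 := (Nat.prime_dvd_prime_iff_eq Nat.prime_three hp'.2).1 h6
        omega
      · show (2 * ((p - 3) / 2) + 3).Prime
        rw [h5]
        exact hp'.2
    · intro p hp q hq h
      have h1 := mem_filter.1 (mem_filter.1 hp).1
      have h2 := mem_filter.1 (mem_filter.1 hq).1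
      have h3 : p % 4 = 1 := h1.2
      have h4 : q % 4 = 1 := h2.2
      have h5 : p ≠ 1 := (mem_filter.1 hp).2.ne_one
      have h6 : q ≠ 1 := (mem_filter.1 hq).2.ne_one
      have h7 : (p - 3) / 2 = (q - 3) / 2 := h
      omega
  refine le_trans ?_ (by exact_mod_cast hcard : ((T.filter (fun n => n.Prime)).card : ℝ) ≤ _)
  rw [div_le_iff₀ (by positivity)]
  set c : ℝ := ((T.filter (fun n => n.Prime)).card : ℝ)
  have hc : 0 ≤ c := by positivity
  -- `n ≤ N ≤ 8 c log N ≤ 16 c log n ≤ c (log n) ^ 2`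
  have e1 : (N : ℝ) ≤ 8 * (c * Real.log N) := by linarith
  have e2 : c * Real.log N ≤ c * (2 * Real.log n) := mul_le_mul_of_nonneg_left hL2 hc
  have e3 : c * (16 * Real.log n) ≤ c * (Real.log n ^ 2) := by
    refine mul_le_mul_of_nonneg_left ?_ hc
    nlinarith
  linarith

end Pool.Agent.E8helper89.GB
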