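import Pool.Agent.E8helper66.GB.Stm

/-!
# Localized count of additive quadruples
-/

set_option autoImplicit false

namespace Pool.Agent.E8helper89.GB

open Finset

lemma pw (M S : ℕ) (hM : 1 ≤ M) (hS : 1 ≤ S) (hSM : S ≤ M) (W : Finset ℤ)
    (hW : W ⊆ Ioc (M : ℤ) (2 * M)) :
    W.card ^ 2 * S ≤ 2 * M * ∑ m ∈ W, ((Icc (-(S : ℤ)) S).filter (fun s => m - s ∈ W)).card := by
  classical
  set blk : ℤ → ℤ := fun m => (m - M - 1) / S with hblk
  set T : Finset ℤ := Ico (0 : ℤ) ((M - 1) / S + 1) with hT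
  have hS0 : (0 : ℤ) < S := by exact_mod_cast hS
  have hmaps : ∀ m ∈ W, blk m ∈ T := by
    intro m hm
    have h := mem_Ioc.1 (hW hm)
    rw [hT, mem_Ico]
    constructor
    · exact Int.ediv_nonneg (by omega) hS0.le
    · have : (m - M - 1) / (S : ℤ) ≤ (M - 1) / S := Int.ediv_le_ediv hS0 (by omega)
      simp only [hblk]
      omega
  have hTc : T.card * S ≤ 2 * M := by
    have h1 : (0 : ℤ) ≤ ((M : ℤ) - 1) / S := Int.ediv_nonneg (by omega) hS0.le
    have h2 : (T.card : ℤ) = ((M : ℤ) - 1) / S + 1 := by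
      rw [hT, Int.card_Ico, Int.toNat_of_nonneg (by omega)]
      ring
    have h3 : ((M : ℤ) - 1) / S * S ≤ M - 1 := Int.ediv_mul_le _ hS0.ne'
    have h4 : (T.card : ℤ) * S ≤ 2 * M := by
      rw [h2, add_mul, one_mul]
      have : (S : ℤ) ≤ M := by exact_mod_cast hSM
      linarith
    exact_mod_cast h4
  have hcard : W.card = ∑ b ∈ T, (W.filter (fun m => blk m = b)).card :=
    card_eq_sum_card_fiberwise hmaps
  have hcs : W.card ^ 2 ≤ T.card * ∑ b ∈ T, (W.filter (fun m => blk m = b)).card ^ 2 := by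
    rw [hcard]
    exact sq_sum_le_card_mul_sum_sq
  have hfib : ∑ b ∈ T, (W.filter (fun m => blk m = b)).card ^ 2
      = ∑ m ∈ W, (W.filter (fun m' => blk m' = blk m)).card := by
    rw [← sum_fiberwise_of_maps_to hmaps]
    refine sum_congr rfl fun b _ => ?_
    rw [sum_congr rfl (g := fun _ => (W.filter (fun m => blk m = b)).card), sum_const, smul_eq_mul,
      sq]
    intro x hx
    rw [(mem_filter.1 hx).2]
  have hinj : ∀ m ∈ W, (W.filter (fun m' => blk m' = blk m)).card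
      ≤ ((Icc (-(S : ℤ)) S).filter (fun s => m - s ∈ W)).card := by
    intro m hm
    refine card_le_card_of_injOn (fun m' => m - m') ?_ ?_
    · intro m' hm'
      have h1 := mem_filter.1 hm'
      have h2 : (m' - M - 1) / (S : ℤ) = (m - M - 1) / S := h1.2
      have h3 := Int.emod_add_mul_ediv (m' - M - 1) S
      have h4 := Int.emod_add_mul_ediv (m - M - 1) S
      have h5 := Int.emod_nonneg (m' - M - 1) hS0.ne'
      have h6 := Int.emod_nonneg (m - M - 1) hS0.ne'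
      have h7 := Int.emod_lt_of_pos (m' - M - 1) hS0
      have h8 := Int.emod_lt_of_pos (m - M - 1) hS0
      rw [h2] at h3
      refine mem_filter.2 ⟨mem_Icc.2 ⟨?_, ?_⟩, ?_⟩
      · show -(S : ℤ) ≤ m - m'
        linarith
      · show m - m' ≤ (S : ℤ)
        linarith
      · show m - (m - m') ∈ W
        rw [sub_sub_cancel]
        exact h1.1
    · intro x _ y _ h
      simpa using h
  calc W.card ^ 2 * S ≤ (T.card * ∑ b ∈ T, (W.filter (fun m => blk m = b)).card ^ 2) * S :=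
        Nat.mul_le_mul_right _ hcs
    _ = (T.card * S) * ∑ m ∈ W, (W.filter (fun m' => blk m' = blk m)).card := by
        rw [hfib]; ring
    _ ≤ 2 * M * ∑ m ∈ W, ((Icc (-(S : ℤ)) S).filter (fun s => m - s ∈ W)).card :=
        Nat.mul_le_mul hTc (sum_le_sum hinj)

lemma numq (M S a Q X Y : ℕ) (hM : 1 ≤ M) (hS : 1 ≤ S) (h1 : Y * S ≤ 2 * M * Q)
    (h2 : a ^ 2 * S ≤ 2 * M * X) (h3 : X ^ 2 ≤ 3 * S * Y) :
    (a : ℝ) ^ 4 * S ^ 2 / (64 * M ^ 3) ≤ Q := by
  have hMr : (1 : ℝ) ≤ M := by exact_mod_cast hM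
  have hSr : (1 : ℝ) ≤ S := by exact_mod_cast hS
  have k1 : (Y : ℝ) * S ≤ 2 * M * Q := by exact_mod_cast h1
  have k2 : (a : ℝ) ^ 2 * S ≤ 2 * M * X := by exact_mod_cast h2
  have k3 : (X : ℝ) ^ 2 ≤ 3 * S * Y := by exact_mod_cast h3
  rw [div_le_iff₀ (by positivity)]
  have k4 : ((a : ℝ) ^ 2 * S) ^ 2 ≤ (2 * M * X) ^ 2 := by
    refine pow_le_pow_left₀ (by positivity) k2 2
  have k5 : (2 * M * (X : ℝ)) ^ 2 ≤ 4 * M ^ 2 * (3 * S * Y) := by
    have : (2 * M * (X : ℝ)) ^ 2 = 4 * M ^ 2 * X ^ 2 := by ring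
    rw [this]
    exact mul_le_mul_of_nonneg_left k3 (by positivity)
  have k6 : 4 * (M : ℝ) ^ 2 * (3 * S * Y) ≤ 12 * M ^ 2 * (2 * M * Q) := by
    have : 4 * (M : ℝ) ^ 2 * (3 * S * Y) = 12 * M ^ 2 * (Y * S) := by ring
    rw [this]
    exact mul_le_mul_of_nonneg_left k1 (by positivity)
  have k7 : (0 : ℝ) ≤ (M : ℝ) ^ 3 * Q := by positivity
  have k8 : (a : ℝ) ^ 4 * (S : ℝ) ^ 2 = ((a : ℝ) ^ 2 * S) ^ 2 := by ring
  have k9 := (k4.trans k5).trans k6
  have k10 : 12 * (M : ℝ) ^ 2 * (2 * M * Q) = 24 * ((M : ℝ) ^ 3 * Q) := by ring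
  have k11 : (Q : ℝ) * (64 * (M : ℝ) ^ 3) = 64 * ((M : ℝ) ^ 3 * Q) := by ring
  linarith

theorem quad : Pool.Agent.E8helper66.GB.S_QUAD := by
  intro M S A hM hS hSM hA
  classical
  set As : ℤ → Finset ℤ := fun s => A.filter (fun m => m - s ∈ A) with hAs
  set I : Finset ℤ := Icc (-(S : ℤ)) S with hI
  set P : Finset ℤ → ℕ := fun W => ∑ m ∈ W, (I.filter (fun s => m - s ∈ W)).card with hP
  have hIc : I.card = 2 * S + 1 := by
    have h : (I.card : ℤ) = 2 * S + 1 := by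
      rw [hI, Int.card_Icc, Int.toNat_of_nonneg (by omega)]
      ring
    exact_mod_cast h
  -- the count
  have hQ : (((A ×ˢ (I ×ˢ I)).filter (fun x => x.1 - x.2.1 ∈ A ∧ x.1 - x.2.2 ∈ A ∧
      x.1 - x.2.1 - x.2.2 ∈ A)).card) = ∑ s ∈ I, P (As s) := by
    rw [card_filter, sum_product]
    simp only [sum_product]
    rw [sum_comm]
    refine sum_congr rfl fun s _ => ?_
    simp only [hP, hAs, card_filter, sum_filter]
    refine sum_congr rfl fun m _ => ?_
    by_cases h1 : m - s ∈ A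
    · rw [if_pos h1]
      refine sum_congr rfl fun t _ => ?_
      simp only [h1, true_and, mem_filter]
      have : m - t - s = m - s - t := by ring
      rw [this]
    · rw [if_neg h1]
      refine sum_eq_zero fun t _ => ?_
      rw [if_neg]
      rintro ⟨h2, _⟩
      exact h1 h2
  have hPA : P A = ∑ s ∈ I, (As s).card := by
    simp only [hP, hAs, card_filter]
    rw [sum_comm]
  have h1 : ∑ s ∈ I, (As s).card ^ 2 * S ≤ 2 * M * ∑ s ∈ I, P (As s) := by
    rw [mul_sum]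
    refine sum_le_sum fun s _ => ?_
    exact pw M S hM hS hSM (As s) ((filter_subset _ _).trans hA)
  have h2 : A.card ^ 2 * S ≤ 2 * M * ∑ s ∈ I, (As s).card := by
    rw [← hPA]
    exact pw M S hM hS hSM A hA
  have h3 : (∑ s ∈ I, (As s).card) ^ 2 ≤ (3 * S) * ∑ s ∈ I, (As s).card ^ 2 := by
    have : (∑ s ∈ I, (As s).card) ^ 2 ≤ I.card * ∑ s ∈ I, (As s).card ^ 2 :=
      sq_sum_le_card_mul_sum_sq
    refine this.trans (Nat.mul_le_mul_right _ ?_)
    rw [hIc]; omega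
  rw [hQ]
  have h1' : (∑ s ∈ I, (As s).card ^ 2) * S ≤ 2 * M * ∑ s ∈ I, P (As s) := by
    rw [sum_mul]; exact h1
  exact numq M S A.card _ _ _ hM hS h1' h2 h3

end Pool.Agent.E8helper89.GB
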